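import Pool.Agent.T6.H47.CR.Defs

/-!
A reduction to formulas with `k b` variables and clauses of `2 b` literals, `n = 2 ^ b`.
-/

set_option autoImplicit false

namespace Pool.Agent.T6.H47.CR

open Finset

open Classical in
theorem rank_nonadj (K : Type) [Field K] (N : ℕ) {n : ℕ} (u v : Fin n) :
    RankLe K N n 1 (fun G => ¬ G.Adj u v) := by
  refine ⟨fun _ G => if First N u v then (if G.Adj u v then 0 else 1) else 1,
    fun _ G => if First N u v then 1 else (if G.Adj u v then 0 else 1), ?_, ?_, ?_⟩
  · intro _ G G' h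
    by_cases hF : First N u v
    · simp only [if_pos hF, h u v hF]
    · simp only [if_neg hF]
  · intro _ G G' h
    by_cases hF : First N u v
    · simp only [if_pos hF]
    · simp only [if_neg hF, h u v hF]
  · intro G
    by_cases hF : First N u v
    · simp [hF]
    · simp [hF]

theorem rank_false (K : Type) [Field K] (N n : ℕ) : RankLe K N n 1 (fun _ => False) := by
  refine ⟨fun _ _ => 0, fun _ _ => 0, fun _ _ _ _ => rfl, fun _ _ _ _ => rfl, fun G => ?_⟩
  simp

/-- words -/
noncomputable def wd (b : ℕ) : Fin (2 ^ b) ≃ (Fin b → Bool) :=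
  Fintype.equivOfCardEq (by simp)

/-- the clause which forbids that the `i`-th and `j`-th words are `u` and `v` -/
noncomputable def cls {k b : ℕ} (i j : Fin k) (u v : Fin (2 ^ b)) : Clause (k * b) (2 * b) :=
  fun p => some (finProdFinEquiv (if (finProdFinEquiv.symm p).1 = 0 then i else j,
    (finProdFinEquiv.symm p).2), !(wd b (if (finProdFinEquiv.symm p).1 = 0 then u else v)
      (finProdFinEquiv.symm p).2))

theorem cls_inj {k b : ℕ} {i j i' j' : Fin k} {u v u' v' : Fin (2 ^ b)}
    (h : cls i j u v = cls i' j' u' v') : u = u' ∧ v = v' := by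
  constructor
  · apply (wd b).injective
    funext t
    have h1 := congrFun h (finProdFinEquiv (0, t))
    simp only [cls, Equiv.symm_apply_apply, if_true, Option.some.injEq, Prod.mk.injEq,
      Bool.not_inj_iff] at h1
    exact h1.2
  · apply (wd b).injective
    funext t
    have h1 := congrFun h (finProdFinEquiv (1, t))
    simp only [cls, Equiv.symm_apply_apply, one_ne_zero, if_false, Option.some.injEq,
      Prod.mk.injEq, Bool.not_inj_iff] at h1
    exact h1.2

/-- the formula -/
def fml (k b : ℕ) (cl : Clause (k * b) (2 * b)) (G : SimpleGraph (Fin (2 ^ b))) : Prop :=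
  ∃ (i j : Fin k) (u v : Fin (2 ^ b)), i ≠ j ∧ cl = cls i j u v ∧ ¬ G.Adj u v

theorem fml_rank (K : Type) [Field K] (N k b : ℕ) (cl : Clause (k * b) (2 * b)) :
    RankLe K N (2 ^ b) 1 (fml k b cl) := by
  by_cases h : ∃ (i j : Fin k) (u v : Fin (2 ^ b)), i ≠ j ∧ cl = cls i j u v
  · obtain ⟨i, j, u, v, hij, hcl⟩ := h
    have h1 : fml k b cl = fun G => ¬ G.Adj u v := by
      funext G
      apply propext
      constructor
      · rintro ⟨i', j', u', v', _, hcl', hadj⟩
        obtain ⟨rfl, rfl⟩ := cls_inj (hcl.symm.trans hcl')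
        exact hadj
      · intro hadj
        exact ⟨i, j, u, v, hij, hcl, hadj⟩
    rw [h1]
    exact rank_nonadj K N u v
  · have h1 : fml k b cl = fun _ => False := by
      funext G
      apply propext
      constructor
      · rintro ⟨i', j', u', v', hij, hcl', _⟩
        exact h ⟨i', j', u', v', hij, hcl'⟩
      · exact False.elim
    rw [h1]
    exact rank_false K N _

theorem fml_sat (k b : ℕ) (G : SimpleGraph (Fin (2 ^ b))) :
    (Sat fun cl => fml k b cl G) ↔ HasClique k G := by
  classical
  have hcl : ∀ (a : Fin (k * b) → Bool) (i j : Fin k) (u v : Fin (2 ^ b)),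
      (∃ p x s, cls i j u v p = some (x, s) ∧ a x = s) ↔
        ¬ ((wd b).symm (fun t => a (finProdFinEquiv (i, t))) = u ∧
          (wd b).symm (fun t => a (finProdFinEquiv (j, t))) = v) := by
    intro a i j u v
    rw [Equiv.symm_apply_eq, Equiv.symm_apply_eq]
    constructor
    · rintro ⟨p, x, s, hp, hx⟩ ⟨h1, h2⟩
      simp only [cls, Option.some.injEq, Prod.mk.injEq] at hp
      obtain ⟨rfl, rfl⟩ := hp
      by_cases h0 : (finProdFinEquiv.symm p).1 = 0
      · simp only [h0, if_true] at hx
        have h3 := congrFun h1 (finProdFinEquiv.symm p).2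
        rw [h3] at hx
        cases hw : wd b u (finProdFinEquiv.symm p).2 <;> simp [hw] at hx
      · simp only [h0, if_false] at hx
        have h3 := congrFun h2 (finProdFinEquiv.symm p).2
        rw [h3] at hx
        cases hw : wd b v (finProdFinEquiv.symm p).2 <;> simp [hw] at hx
    · intro h
      rw [not_and_or] at h
      rcases h with h | h
      · obtain ⟨t, ht⟩ := Function.ne_iff.1 h
        refine ⟨finProdFinEquiv (0, t), _, _, rfl, ?_⟩
        simp only [Equiv.symm_apply_apply, if_true]
        cases h1 : a (finProdFinEquiv (i, t)) <;> cases h2 : wd b u t <;> simp_all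
      · obtain ⟨t, ht⟩ := Function.ne_iff.1 h
        refine ⟨finProdFinEquiv (1, t), _, _, rfl, ?_⟩
        simp only [Equiv.symm_apply_apply, one_ne_zero, if_false]
        cases h1 : a (finProdFinEquiv (j, t)) <;> cases h2 : wd b v t <;> simp_all
  constructor
  · rintro ⟨a, ha⟩
    set w : Fin k → Fin (2 ^ b) := fun i => (wd b).symm (fun t => a (finProdFinEquiv (i, t)))
      with hw
    have hadj : ∀ i j, i ≠ j → G.Adj (w i) (w j) := by
      intro i j hij
      by_contra hn
      have h1 := ha (cls i j (w i) (w j)) ⟨i, j, w i, w j, hij, rfl, hn⟩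
      rw [hcl] at h1
      exact h1 ⟨rfl, rfl⟩
    have hinj : Function.Injective w := by
      intro i j hij
      by_contra hne
      exact (hadj i j hne).ne hij
    refine ⟨univ.map ⟨w, hinj⟩, ?_, by simp⟩
    intro x hx y hy hxy
    rw [coe_map, Set.mem_image] at hx hy
    obtain ⟨i, -, rfl⟩ := hx
    obtain ⟨j, -, rfl⟩ := hy
    exact hadj i j fun h => hxy (by rw [h])
  · rintro ⟨s, hs⟩
    have hcard : Fintype.card (Fin k) = Fintype.card s := by
      rw [Fintype.card_fin, Fintype.card_coe, hs.card_eq]
    set w : Fin k ≃ s := Fintype.equivOfCardEq hcard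
    refine ⟨fun x => wd b (w (finProdFinEquiv.symm x).1) (finProdFinEquiv.symm x).2, ?_⟩
    rintro cl ⟨i, j, u, v, hij, rfl, hadj⟩
    rw [hcl]
    rintro ⟨h1, h2⟩
    simp only [Equiv.symm_apply_apply] at h1 h2
    apply hadj
    rw [← h1, ← h2]
    exact hs.isClique (w i).2 (w j).2 fun h => hij (w.injective (Subtype.ext h))

theorem upper (K : Type) [Field K] (N k b : ℕ) :
    ∃ (F : Fin 1 → Clause (k * b) (2 * b) → SimpleGraph (Fin (2 ^ b)) → Prop)
      (ev : (Fin 1 → Prop) → Prop), IsReduction k F ev ∧ ∀ i cl, RankLe K N (2 ^ b) 1 (F i cl) :=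
  ⟨fun _ => fml k b, fun x => x 0, fun G => fml_sat k b G, fun _ cl => fml_rank K N k b cl⟩

end Pool.Agent.T6.H47.CR
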