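import Mathlib

/-!
# Reductions of the clique problem to small satisfiability problems: definitions

The graphs have the vertices `0, …, n - 1`.
-/

set_option autoImplicit false

namespace Pool.Agent.T6.H47.CR

/-- `G` has a clique with `k` vertices. -/
def HasClique {n : ℕ} (k : ℕ) (G : SimpleGraph (Fin n)) : Prop :=
  ∃ s : Finset (Fin n), G.IsNClique k s

/-- The pairs of vertices of the first player: one vertex is smaller than `N`, the other one is at
least `N` and smaller than `2 N`. -/
def First (N : ℕ) {n : ℕ} (u v : Fin n) : Prop :=
  (u.1 < N ∧ N ≤ v.1 ∧ v.1 < 2 * N) ∨ (v.1 < N ∧ N ≤ u.1 ∧ u.1 < 2 * N)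

/-- The property `f` of graphs with `n` vertices has communication rank at most `r` over the field
`K`: its indicator function is a sum of `r` products `g i * h i`, where `g i G` is determined by the
adjacency of the pairs of the first player in `G` and `h i G` by the adjacency of all other pairs. -/
def RankLe (K : Type) [Field K] (N n r : ℕ) (f : SimpleGraph (Fin n) → Prop) : Prop :=
  ∃ g h : Fin r → SimpleGraph (Fin n) → K,
    (∀ i G G', (∀ u v, First N u v → (G.Adj u v ↔ G'.Adj u v)) → g i G = g i G') ∧
    (∀ i G G', (∀ u v, ¬ First N u v → (G.Adj u v ↔ G'.Adj u v)) → h i G = h i G') ∧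
    ∀ G, (f G → ∑ i, g i G * h i G = 1) ∧ (¬ f G → ∑ i, g i G * h i G = 0)

/-- A clause with at most `d` literals over `v` variables: `some (x, s)` stands for the literal
`x = s`. -/
abbrev Clause (v d : ℕ) : Type := Fin d → Option (Fin v × Bool)

/-- The formula with the clauses in `F` is satisfiable. -/
def Sat {v d : ℕ} (F : Clause v d → Prop) : Prop :=
  ∃ a : Fin v → Bool, ∀ cl, F cl → ∃ i x s, cl i = some (x, s) ∧ a x = s

/-- A truth-table reduction of the problem whether a graph with `n` vertices has a clique with `k`
vertices to satisfiability: for the graph `G`, the `i`-th of `q` formulas over `v` variables has the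
clauses `cl` with `F i cl G`, each with at most `d` literals, and the function `ev` evaluates the `q`
answers. -/
def IsReduction {n q v d : ℕ} (k : ℕ) (F : Fin q → Clause v d → SimpleGraph (Fin n) → Prop)
    (ev : (Fin q → Prop) → Prop) : Prop :=
  ∀ G, ev (fun i => Sat fun cl => F i cl G) ↔ HasClique k G

end Pool.Agent.T6.H47.CR
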