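import Mathlib

/-!
Functions determined by few bits of small communication rank.
-/

set_option autoImplicit false

namespace Pool.Agent.T6.H47.CR

open Finset

variable {K : Type} [Field K]

/-- The rows of the matrix `[S ⊆ T]` are linearly independent. -/
theorem zeta_indep {I : Type} [Fintype I] [DecidableEq I] :
    LinearIndependent K (fun (S : Finset I) (T : Finset I) => if S ⊆ T then (1 : K) else 0) := by
  rw [Fintype.linearIndependent_iff]
  intro c hc
  have key : ∀ n : ℕ, ∀ T : Finset I, T.card = n → c T = 0 := by
    intro n
    induction n using Nat.strong_induction_on with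
    | _ n ih =>
      intro T hT
      have h1 := congrFun hc T
      rw [Finset.sum_apply] at h1
      simp only [Pi.smul_apply, smul_eq_mul, Pi.zero_apply] at h1
      rw [Finset.sum_eq_single T] at h1
      · simpa using h1
      · intro S _ hS
        by_cases h : S ⊆ T
        · rw [ih S.card (by
            rw [← hT]
            exact card_lt_card (h.ssubset_of_ne hS)) S rfl, zero_mul]
        · rw [if_neg h, mul_zero]
      · intro h
        exact absurd (mem_univ _) h
  exact fun T => key _ T rfl

/-- Products of one factor from each of `M` families of `r + 1` functions. -/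
def gen {Y : Type} {M r : ℕ} (h : Fin M → Fin r → Y → K) (τ : Fin M → Option (Fin r)) (y : Y) : K :=
  ∏ j, (match τ j with
    | none => 1
    | some i => h j i y)

theorem mem_gen {Y : Type} {M r : ℕ} (h : Fin M → Fin r → Y → K) (b : Fin M → Y → Bool)
    (g : Fin M → Fin r → K) (hb : ∀ j y, (if b j y then (1 : K) else 0) = ∑ i, g j i * h j i y)
    (ev : (Fin M → Bool) → K) :
    (fun y => ev fun j => b j y) ∈ Submodule.span K (Set.range (gen h)) := by
  classical
  have h1 : (fun y => ev fun j => b j y) = ∑ β : Fin M → Bool, ∑ τ : Fin M → Option (Fin r),
      (ev β * ∏ j, (match τ j with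
        | none => (if β j then 0 else 1)
        | some i => (if β j then 1 else -1) * g j i)) • gen h τ := by
    funext y
    rw [Finset.sum_apply]
    have h2 : ∀ β : Fin M → Bool, (∑ τ : Fin M → Option (Fin r),
        (ev β * ∏ j, (match τ j with
          | none => (if β j then 0 else 1)
          | some i => (if β j then 1 else -1) * g j i)) • gen h τ) y =
        if β = (fun j => b j y) then ev β else 0 := by
      intro β
      rw [Finset.sum_apply]
      simp only [Pi.smul_apply, smul_eq_mul, gen, mul_assoc, ← prod_mul_distrib]
      rw [← mul_sum]
      have h3 := Finset.prod_univ_sum (fun _ : Fin M => (univ : Finset (Option (Fin r))))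
        (fun j o => ((match o with
          | none => (if β j then 0 else 1)
          | some i => (if β j then 1 else -1) * g j i) : K) * (match o with
          | none => 1
          | some i => h j i y))
      rw [Fintype.piFinset_univ] at h3
      rw [← h3]
      have h4 : ∀ j, ∑ o : Option (Fin r), ((match o with
          | none => (if β j then 0 else 1)
          | some i => (if β j then 1 else -1) * g j i) : K) * (match o with
          | none => 1
          | some i => h j i y) = if β j = b j y then 1 else 0 := by
        intro j
        rw [Fintype.sum_option]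
        simp only [mul_assoc]
        rw [← mul_sum, ← hb j y]
        cases β j <;> cases b j y <;> simp
      rw [prod_congr rfl fun j _ => h4 j]
      by_cases hβ : β = fun j => b j y
      · rw [if_pos hβ, prod_eq_one, mul_one]
        intro j _
        rw [hβ]
        simp
      · rw [if_neg hβ]
        have : ∃ j, β j ≠ b j y := by
          by_contra hcon
          push Not at hcon
          exact hβ (funext hcon)
        obtain ⟨j, hj⟩ := this
        rw [prod_eq_zero (mem_univ j) (if_neg hj), mul_zero]
    rw [sum_congr rfl fun β _ => h2 β, sum_ite_eq' univ (fun j => b j y) ev, if_pos (mem_univ _)]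
  rw [h1]
  refine Submodule.sum_mem _ fun β _ => Submodule.sum_mem _ fun τ _ => ?_
  exact Submodule.smul_mem _ _ (Submodule.subset_span ⟨τ, rfl⟩)

/-- If `M` bits of communication rank at most `r` determine whether `S ⊆ T`, then
`2 ^ |I| ≤ (r + 1) ^ M`. -/
theorem rank_bound {I : Type} [Fintype I] [DecidableEq I] {M r : ℕ}
    (b : Fin M → Finset I → Finset I → Bool) (g : Fin M → Fin r → Finset I → K)
    (h : Fin M → Fin r → Finset I → K)
    (hb : ∀ j S T, (if b j S T then (1 : K) else 0) = ∑ i, g j i S * h j i T)
    (ev : (Fin M → Bool) → K)
    (hev : ∀ S T, ev (fun j => b j S T) = if S ⊆ T then (1 : K) else 0) :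
    2 ^ Fintype.card I ≤ (r + 1) ^ M := by
  classical
  have h1 : ∀ S : Finset I, (fun T : Finset I => if S ⊆ T then (1 : K) else 0) ∈
      Submodule.span K (Set.range (gen h)) := by
    intro S
    have h2 := mem_gen h (fun j T => b j S T) (fun j i => g j i S) (fun j T => hb j S T) ev
    have h3 : (fun T : Finset I => if S ⊆ T then (1 : K) else 0) =
        fun T => ev fun j => b j S T := by
      funext T
      rw [hev]
    rw [h3]
    exact h2
  have hli : LinearIndependent K (fun S : Finset I =>
      (⟨_, h1 S⟩ : Submodule.span K (Set.range (gen h)))) := by
    apply LinearIndependent.of_comp (Submodule.span K (Set.range (gen h))).subtype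
    exact zeta_indep
  have h4 := hli.fintype_card_le_finrank
  have h5 := finrank_range_le_card (R := K) (gen h)
  rw [Fintype.card_finset] at h4
  refine h4.trans (h5.trans ?_)
  rw [Fintype.card_fun, Fintype.card_option, Fintype.card_fin, Fintype.card_fin]

end Pool.Agent.T6.H47.CR
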