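import Pool.Agent.T6.H47.CR.Defs
import Pool.Agent.T6.H47.CR.Rank

/-!
Graphs in which the cliques detect whether `S ⊆ T`.
-/

set_option autoImplicit false

namespace Pool.Agent.T6.H47.CR

open Finset

/-- vertices -/
inductive Vx (N m : ℕ) : Type
  | A (i : Fin N)
  | B (j : Fin N)
  | C (i : Fin N)
  | Z (z : Fin m)

variable {N m : ℕ}

/-- adjacency -/
def rel (S T : Finset (Fin N × Fin N)) : Vx N m → Vx N m → Prop
  | .A i, .B j => (i, j) ∈ S
  | .C i, .B j => (i, j) ∉ T
  | .A i, .C i' => i = i'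
  | .Z _, _ => True
  | _, _ => False

/-- the graph -/
def gr (m : ℕ) (S T : Finset (Fin N × Fin N)) : SimpleGraph (Vx N m) :=
  SimpleGraph.fromRel (rel S T)

/-- kinds of vertices -/
def kind : Vx N m → Fin 3 ⊕ Fin m
  | .A _ => Sum.inl 0
  | .B _ => Sum.inl 1
  | .C _ => Sum.inl 2
  | .Z z => Sum.inr z

theorem kind_ne {S T : Finset (Fin N × Fin N)} {a b : Vx N m} (h : (gr m S T).Adj a b) :
    kind a ≠ kind b := by
  rw [gr, SimpleGraph.fromRel_adj] at h
  obtain ⟨hne, h⟩ := h
  intro hk
  cases a <;> cases b <;> simp_all [kind, rel]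

theorem clique_iff (S T : Finset (Fin N × Fin N)) :
    (∃ s : Finset (Vx N m), (gr m S T).IsNClique (m + 3) s) ↔ ¬ S ⊆ T := by
  classical
  constructor
  · rintro ⟨s, hs⟩ hST
    have hinj : Set.InjOn kind (s : Set (Vx N m)) := by
      intro a ha b hb hab
      by_contra hne
      exact kind_ne (hs.isClique ha hb hne) hab
    have hcard : (s.image kind).card = Fintype.card (Fin 3 ⊕ Fin m) := by
      rw [card_image_of_injOn hinj, hs.card_eq, Fintype.card_sum, Fintype.card_fin,
        Fintype.card_fin, add_comm]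
    have huniv := (card_eq_iff_eq_univ _).1 hcard
    have hex : ∀ x, ∃ a ∈ s, kind a = x := fun x => by
      have : x ∈ s.image kind := by
        rw [huniv]
        exact mem_univ x
      exact mem_image.1 this
    obtain ⟨a, ha, ka⟩ := hex (Sum.inl 0)
    obtain ⟨b, hb, kb⟩ := hex (Sum.inl 1)
    obtain ⟨c, hc, kc⟩ := hex (Sum.inl 2)
    have hab := hs.isClique ha hb (by
      intro h
      rw [h, kb] at ka
      simp at ka)
    have hac := hs.isClique ha hc (by
      intro h
      rw [h, kc] at ka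
      simp at ka)
    have hcb := hs.isClique hc hb (by
      intro h
      rw [h, kb] at kc
      simp at kc)
    rw [gr, SimpleGraph.fromRel_adj] at hab hac hcb
    cases a <;> cases b <;> cases c <;> simp_all [kind, rel]
    rename_i i j
    exact hcb (hST hab)
  · intro hST
    obtain ⟨⟨i, j⟩, hS, hT⟩ := not_subset.1 hST
    let ψ : Fin 3 ⊕ Fin m → Vx N m := Sum.elim ![.A i, .B j, .C i] Vx.Z
    have hkψ : ∀ x, kind (ψ x) = x := by
      rintro (x | z)
      · fin_cases x <;> rfl
      · rfl
    have hinj : Function.Injective ψ := Function.LeftInverse.injective hkψ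
    refine ⟨univ.map ⟨ψ, hinj⟩, ?_, ?_⟩
    · intro a ha b hb hab
      rw [coe_map, Set.mem_image] at ha hb
      obtain ⟨x, -, rfl⟩ := ha
      obtain ⟨y, -, rfl⟩ := hb
      rw [gr, SimpleGraph.fromRel_adj]
      refine ⟨hab, ?_⟩
      change rel S T (ψ x) (ψ y) ∨ rel S T (ψ y) (ψ x)
      have hxy : x ≠ y := by
        rintro rfl
        exact hab rfl
      rcases x with x | z
      · rcases y with y | z
        · fin_cases x <;> fin_cases y <;> simp_all [ψ, rel]
        · right
          simp [ψ, rel]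
      · left
        simp [ψ, rel]
    · rw [card_map, card_univ, Fintype.card_sum, Fintype.card_fin, Fintype.card_fin, add_comm]

/-- the embedding -/
def emb {n : ℕ} (h : 3 * N + m ≤ n) : Vx N m → Fin n
  | .A i => ⟨i.1, by omega⟩
  | .B j => ⟨N + j.1, by omega⟩
  | .C i => ⟨2 * N + i.1, by omega⟩
  | .Z z => ⟨3 * N + z.1, by omega⟩

theorem emb_inj {n : ℕ} (h : 3 * N + m ≤ n) : Function.Injective (emb (N := N) (m := m) h) := by
  intro a b hab
  cases a <;> cases b <;> simp only [emb, Fin.mk.injEq] at hab <;>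
    first
      | (rw [Vx.A.injEq]; exact Fin.ext (by omega))
      | (rw [Vx.B.injEq]; exact Fin.ext (by omega))
      | (rw [Vx.C.injEq]; exact Fin.ext (by omega))
      | (rw [Vx.Z.injEq]; exact Fin.ext (by omega))
      | (exfalso; omega)

/-- the embedding -/
def embE {n : ℕ} (h : 3 * N + m ≤ n) : Vx N m ↪ Fin n := ⟨emb h, emb_inj h⟩

/-- the graph with `n` vertices -/
def big {n : ℕ} (h : 3 * N + m ≤ n) (S T : Finset (Fin N × Fin N)) : SimpleGraph (Fin n) :=
  (gr m S T).map (embE h)

theorem big_clique {n : ℕ} (h : 3 * N + m ≤ n) (S T : Finset (Fin N × Fin N)) :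
    HasClique (m + 3) (big h S T) ↔ ¬ S ⊆ T := by
  rw [← clique_iff (m := m) S T]
  unfold HasClique big
  constructor
  · rintro ⟨s, hs⟩
    rw [SimpleGraph.isNClique_map_iff (by omega)] at hs
    obtain ⟨t, ht, -⟩ := hs
    exact ⟨t, ht⟩
  · rintro ⟨s, hs⟩
    exact ⟨_, hs.map⟩

theorem big_first {n : ℕ} (h : 3 * N + m ≤ n) (S T T' : Finset (Fin N × Fin N)) (u v : Fin n)
    (huv : First N u v) : (big h S T).Adj u v → (big h S T').Adj u v := by
  rw [big, big, SimpleGraph.map_adj, SimpleGraph.map_adj]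
  rintro ⟨a, b, hab, rfl, rfl⟩
  refine ⟨a, b, ?_, rfl, rfl⟩
  rw [gr, SimpleGraph.fromRel_adj] at hab ⊢
  refine ⟨hab.1, ?_⟩
  have h2 := hab.2
  have h3 : First N (emb h a) (emb h b) := huv
  unfold First at h3
  cases a <;> cases b <;> simp only [emb, rel] at h2 h3 ⊢ <;> first | exact h2 | (exfalso; omega)

theorem big_other {n : ℕ} (h : 3 * N + m ≤ n) (S S' T : Finset (Fin N × Fin N)) (u v : Fin n)
    (huv : ¬ First N u v) : (big h S T).Adj u v → (big h S' T).Adj u v := by
  rw [big, big, SimpleGraph.map_adj, SimpleGraph.map_adj]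
  rintro ⟨a, b, hab, rfl, rfl⟩
  refine ⟨a, b, ?_, rfl, rfl⟩
  rw [gr, SimpleGraph.fromRel_adj] at hab ⊢
  refine ⟨hab.1, ?_⟩
  have h2 := hab.2
  have h3 : ¬ First N (emb h a) (emb h b) := huv
  unfold First at h3
  cases a <;> cases b <;> simp only [emb, rel] at h2 h3 ⊢ <;> first | exact h2 | (exfalso; omega)

/-- If bits of communication rank at most `r` determine whether there is a clique with `k` vertices
then there are many of them or `r` is large. -/
theorem bits_bound (K : Type) [Field K] {n k : ℕ} (hk : 3 ≤ k) (hn : 3 * N + (k - 3) ≤ n)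
    {J : Type} [Fintype J] {r : ℕ} (b : J → SimpleGraph (Fin n) → Prop)
    (hr : ∀ j, RankLe K N n r (b j))
    (hb : ∀ G G', (∀ j, b j G ↔ b j G') → (HasClique k G ↔ HasClique k G')) :
    2 ^ (N * N) ≤ (r + 1) ^ Fintype.card J := by
  classical
  obtain ⟨m, rfl⟩ : ∃ m, k = m + 3 := ⟨k - 3, by omega⟩
  have hn' : 3 * N + m ≤ n := by omega
  choose g h hg hh hf using hr
  set e := Fintype.equivFin J
  have hbig1 : ∀ S T T' : Finset (Fin N × Fin N), ∀ u v, First N u v →
      ((big hn' S T).Adj u v ↔ (big hn' S T').Adj u v) := fun S T T' u v huv =>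
    ⟨big_first hn' S T T' u v huv, big_first hn' S T' T u v huv⟩
  have hbig2 : ∀ S S' T : Finset (Fin N × Fin N), ∀ u v, ¬ First N u v →
      ((big hn' S T).Adj u v ↔ (big hn' S' T).Adj u v) := fun S S' T u v huv =>
    ⟨big_other hn' S S' T u v huv, big_other hn' S' S T u v huv⟩
  have hmain := rank_bound (K := K) (I := Fin N × Fin N) (M := Fintype.card J) (r := r)
    (fun j S T => decide (b (e.symm j) (big hn' S T)))
    (fun j i S => g (e.symm j) i (big hn' S ∅)) (fun j i T => h (e.symm j) i (big hn' ∅ T))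
    (by
      intro j S T
      have h1 : ∀ i, g (e.symm j) i (big hn' S ∅) = g (e.symm j) i (big hn' S T) := fun i =>
        hg _ i _ _ (hbig1 S ∅ T)
      have h2 : ∀ i, h (e.symm j) i (big hn' ∅ T) = h (e.symm j) i (big hn' S T) := fun i =>
        hh _ i _ _ (hbig2 ∅ S T)
      simp only [h1, h2]
      by_cases h3 : b (e.symm j) (big hn' S T)
      · rw [(hf (e.symm j) (big hn' S T)).1 h3]
        simp [h3]
      · rw [(hf (e.symm j) (big hn' S T)).2 h3]
        simp [h3])
    (fun β => if ∃ S T : Finset (Fin N × Fin N),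
      (fun j => decide (b (e.symm j) (big hn' S T))) = β ∧ S ⊆ T then 1 else 0)
    (by
      intro S T
      by_cases hST : S ⊆ T
      · rw [if_pos ⟨S, T, rfl, hST⟩, if_pos hST]
      · rw [if_neg hST, if_neg]
        rintro ⟨S', T', h1, h2⟩
        have h3 : ∀ j, b j (big hn' S' T') ↔ b j (big hn' S T) := by
          intro j
          have := congrFun h1 (e j)
          simpa using this
        have h4 := hb _ _ h3
        rw [big_clique, big_clique] at h4
        exact h4.2 hST h2)
  rw [Fintype.card_prod, Fintype.card_fin] at hmain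
  exact hmain

end Pool.Agent.T6.H47.CR
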