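import Pool.Agent.T6.H47.CR.Graph

/-!
Reductions of the clique problem to small satisfiability problems.
-/

set_option autoImplicit false

namespace Pool.Agent.T6.H47.CR

open Finset Filter

theorem red_bound (K : Type) [Field K] {n k N q v d r : ℕ} (hk : 3 ≤ k)
    (hn : 3 * N + (k - 3) ≤ n) (F : Fin q → Clause v d → SimpleGraph (Fin n) → Prop)
    (ev : (Fin q → Prop) → Prop) (hF : IsReduction k F ev)
    (hr : ∀ i cl, RankLe K N n r (F i cl)) :
    2 ^ (N * N) ≤ (r + 1) ^ (q * (2 * v + 1) ^ d) := by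
  have h := bits_bound K hk hn (J := Fin q × Clause v d) (fun j => F j.1 j.2)
    (fun j => hr j.1 j.2) (by
      intro G G' h
      rw [← hF G, ← hF G']
      have h1 : (fun i => Sat fun cl => F i cl G) = fun i => Sat fun cl => F i cl G' := by
        funext i
        have h2 : (fun cl => F i cl G) = fun cl => F i cl G' := by
          funext cl
          exact propext (h (i, cl))
        rw [h2]
      rw [h1])
  have hc : Fintype.card (Fin q × Clause v d) = q * (2 * v + 1) ^ d := by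
    rw [Fintype.card_prod, Fintype.card_fin, Fintype.card_fun, Fintype.card_option,
      Fintype.card_prod, Fintype.card_fin, Fintype.card_bool, Fintype.card_fin, mul_comm v 2]
  rw [hc] at h
  exact h

theorem log_bound (C ε : ℝ) (hC : 0 ≤ C) (hε : 0 < ε) (d : ℕ) :
    ∀ᶠ n : ℕ in atTop, (C * Real.log n) ^ d ≤ (n : ℝ) ^ ε / 64 := by
  have h1 := isLittleO_log_rpow_rpow_atTop (s := ε) (d : ℝ) hε
  have hc : 0 < 1 / (64 * (C ^ d + 1)) := by positivity
  have h2 := (h1.bound hc)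
  have h3 := tendsto_natCast_atTop_atTop (R := ℝ) |>.eventually h2
  filter_upwards [h3, eventually_ge_atTop 1] with n hn hn1
  have hn1' : (1 : ℝ) ≤ n := by exact_mod_cast hn1
  have hlog : 0 ≤ Real.log n := Real.log_nonneg hn1'
  rw [Real.rpow_natCast, Real.norm_of_nonneg (by positivity), Real.norm_of_nonneg (by positivity)]
    at hn
  calc (C * Real.log n) ^ d = C ^ d * Real.log n ^ d := mul_pow _ _ _
    _ ≤ C ^ d * (1 / (64 * (C ^ d + 1)) * (n : ℝ) ^ ε) := by gcongr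
    _ = (C ^ d / (C ^ d + 1)) * ((n : ℝ) ^ ε / 64) := by field_simp
    _ ≤ 1 * ((n : ℝ) ^ ε / 64) := by
        gcongr
        rw [div_le_one (by positivity)]
        linarith
    _ = _ := one_mul _

theorem fpt_bound (f g : ℕ → ℕ) (c d k : ℕ) (hk : 3 ≤ k) (ε : ℝ) (hε : 0 < ε) :
    ∃ n0 : ℕ, ∀ n ≥ n0, ∀ (K : Type) [Field K] (q v r : ℕ)
      (F : Fin q → Clause v d → SimpleGraph (Fin n) → Prop) (ev : (Fin q → Prop) → Prop),
      (v : ℝ) ≤ g k * (Real.logb 2 (f k * (n : ℝ) ^ c) + 1) → IsReduction k F ev →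
      (∀ i cl, RankLe K (n / 4) n r (F i cl)) → (n : ℝ) ^ (2 - ε) ≤ q * Real.logb 2 (r + 1) := by
  set B : ℝ := |Real.logb 2 (f k)| with hB
  set C : ℝ := 2 * g k * (B + c / Real.log 2 + 1) + 1 with hC
  have hl2 : 0 < Real.log 2 := Real.log_pos (by norm_num)
  have hB0 : 0 ≤ B := abs_nonneg _
  have hC0 : 0 ≤ C := by positivity
  obtain ⟨n1, hn1⟩ := eventually_atTop.1 (log_bound C ε hC0 hε d)
  refine ⟨max n1 (max 8 (4 * k)), ?_⟩
  intro n hn K _ q v r F ev hv hF hr
  have hn1' : n1 ≤ n := le_trans (le_max_left _ _) hn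
  have hn8 : 8 ≤ n := le_trans (le_trans (le_max_left _ _) (le_max_right _ _)) hn
  have hn4 : 4 * k ≤ n := le_trans (le_trans (le_max_right _ _) (le_max_right _ _)) hn
  have hN : 3 * (n / 4) + (k - 3) ≤ n := by omega
  have h1 := red_bound K hk hN F ev hF hr
  have hnR : (8 : ℝ) ≤ n := by exact_mod_cast hn8
  have hn0 : (0 : ℝ) < n := by linarith
  have hNR : (n : ℝ) / 8 ≤ ((n / 4 : ℕ) : ℝ) := by
    have h2 : n ≤ 8 * (n / 4) := by omega
    have h3 : (n : ℝ) ≤ 8 * ((n / 4 : ℕ) : ℝ) := by exact_mod_cast h2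
    linarith
  have hlog1 : 1 ≤ Real.log n := by
    rw [Real.le_log_iff_exp_le hn0]
    have := Real.exp_one_lt_d9
    linarith
  have hlogb : Real.logb 2 (f k * (n : ℝ) ^ c) ≤ (B + c / Real.log 2) * Real.log n := by
    rcases Nat.eq_zero_or_pos (f k) with h0 | h0
    · rw [h0]
      simp only [Nat.cast_zero, zero_mul, Real.logb_zero]
      positivity
    · have hf0 : ((f k : ℕ) : ℝ) ≠ 0 := by
        exact_mod_cast h0.ne'
      rw [Real.logb_mul hf0 (by positivity), Real.logb_pow]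
      have h2 : Real.logb 2 (f k) ≤ B := le_abs_self _
      have h3 : Real.logb 2 (n : ℝ) = Real.log n / Real.log 2 := rfl
      rw [h3]
      have h4 : B ≤ B * Real.log n := by nlinarith
      have h5 : (c : ℝ) * (Real.log n / Real.log 2) = c / Real.log 2 * Real.log n := by ring
      rw [h5]
      nlinarith
  have hv2 : 2 * (v : ℝ) + 1 ≤ C * Real.log n := by
    have h2 : (v : ℝ) ≤ g k * ((B + c / Real.log 2 + 1) * Real.log n) := by
      refine hv.trans ?_
      gcongr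
      linarith
    calc 2 * (v : ℝ) + 1 ≤ 2 * (g k * ((B + c / Real.log 2 + 1) * Real.log n)) + Real.log n := by
          linarith
      _ = C * Real.log n := by
          rw [hC]
          ring
  have hvd : (2 * (v : ℝ) + 1) ^ d ≤ (n : ℝ) ^ ε / 64 := by
    refine le_trans ?_ (hn1 n hn1')
    gcongr
  have h6 : (((n / 4 : ℕ) : ℝ) * ((n / 4 : ℕ) : ℝ)) ≤
      (q * (2 * (v : ℝ) + 1) ^ d) * Real.logb 2 (r + 1) := by
    have h7 : (2 : ℝ) ^ ((n / 4) * (n / 4)) ≤ ((r : ℝ) + 1) ^ (q * (2 * v + 1) ^ d) := by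
      exact_mod_cast h1
    have h8 := Real.logb_le_logb_of_le (b := 2) (by norm_num) (by positivity) h7
    rw [Real.logb_pow, Real.logb_pow, Real.logb_self_eq_one (by norm_num), mul_one] at h8
    push_cast at h8
    exact h8
  have hlr : 0 ≤ Real.logb 2 ((r : ℝ) + 1) := by
    apply Real.logb_nonneg (by norm_num)
    have : (0 : ℝ) ≤ r := Nat.cast_nonneg r
    linarith
  have h9 : (n : ℝ) ^ 2 / 64 ≤ q * ((n : ℝ) ^ ε / 64) * Real.logb 2 (r + 1) := by
    calc (n : ℝ) ^ 2 / 64 = (n / 8) * (n / 8) := by ring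
      _ ≤ ((n / 4 : ℕ) : ℝ) * ((n / 4 : ℕ) : ℝ) := by gcongr
      _ ≤ (q * (2 * (v : ℝ) + 1) ^ d) * Real.logb 2 (r + 1) := h6
      _ ≤ (q * ((n : ℝ) ^ ε / 64)) * Real.logb 2 (r + 1) := by gcongr
  have hne : 0 < (n : ℝ) ^ ε := by positivity
  rw [Real.rpow_sub hn0, div_le_iff₀ hne]
  have h10 : (n : ℝ) ^ (2 : ℝ) = (n : ℝ) ^ 2 := Real.rpow_two _
  rw [h10]
  linarith

end Pool.Agent.T6.H47.CR
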